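import Mathlib
import Pool.Agent.H17.LongJ

set_option autoImplicit false

namespace Pool.Agent.Results.MP_526336_an.NoRenorming

/-- The dual of Z is norm separable. -/
def SepDual (Z : Type) [NormedAddCommGroup Z] [NormedSpace ℝ Z] : Prop :=
  TopologicalSpace.SeparableSpace (StrongDual ℝ Z)

/-- Every separable subspace has a separable dual. -/
def Asplund (X : Type) [NormedAddCommGroup X] [NormedSpace ℝ X] : Prop :=
  ∀ Z : Submodule ℝ X, TopologicalSpace.SeparableSpace Z → SepDual Z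

/-- K embeds in a power of the line with a dense set of countably supported points. -/
def Valdivia (K : Type) [TopologicalSpace K] : Prop :=
  ∃ (Γ : Type) (h : K → Γ → ℝ), Topology.IsEmbedding h ∧ Dense {x | {γ | h x γ ≠ 0}.Countable}

/-- The closed unit ball of the dual of Y in the weak-star topology. -/
abbrev DualBall (Y : Type) [NormedAddCommGroup Y] [NormedSpace ℝ Y] : Type :=
  {φ : WeakDual ℝ Y // ‖WeakDual.toStrongDual φ‖ ≤ 1}

/-- The weak-star dual unit ball of Y is Valdivia. -/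
def BallValdivia (Y : Type) [NormedAddCommGroup Y] [NormedSpace ℝ Y] : Prop :=
  Valdivia (DualBall Y)

/-- The family (y, f) is a Markushevich basis of Y. -/
def IsMBasis {Y Γ : Type} [NormedAddCommGroup Y] [NormedSpace ℝ Y] (y : Γ → Y)
    (f : Γ → StrongDual ℝ Y) : Prop :=
  (∀ a, f a (y a) = 1) ∧ (∀ a b, a ≠ b → f a (y b) = 0) ∧
    Dense (Submodule.span ℝ (Set.range y) : Set Y) ∧ ∀ v, (∀ a, f a v = 0) → v = 0

/-- The functionals that are nonzero on only countably many y a are 1-norming. -/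
def CountablyNorming {Y Γ : Type} [NormedAddCommGroup Y] [NormedSpace ℝ Y] (y : Γ → Y) : Prop :=
  ∀ v, IsLUB {r | ∃ φ : StrongDual ℝ Y, {a | φ (y a) ≠ 0}.Countable ∧ ‖φ‖ ≤ 1 ∧ r = |φ v|} ‖v‖

/-- Y has a countably 1-norming Markushevich basis. -/
def HasCNB (Y : Type) [NormedAddCommGroup Y] [NormedSpace ℝ Y] : Prop :=
  ∃ (Γ : Type) (y : Γ → Y) (f : Γ → StrongDual ℝ Y), IsMBasis y f ∧ CountablyNorming y

/-- X and X' are linearly homeomorphic. -/
def Iso (X X' : Type) [NormedAddCommGroup X] [NormedSpace ℝ X] [NormedAddCommGroup X']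
    [NormedSpace ℝ X'] : Prop := Nonempty (X ≃L[ℝ] X')

open H17.Vald

theorem half {Y : Type} [NormedAddCommGroup Y] [NormedSpace ℝ Y] (h : HasCNB Y) : Plichko Y := by
  obtain ⟨Γ, y, f, ⟨_, _, h3, _⟩, h5⟩ := h
  refine ⟨_, h3, 1 / 2, by norm_num, fun v => ?_⟩
  rcases (norm_nonneg v).eq_or_lt with c | c
  · exact ⟨0, by simp, by simp, by rw [← c]; simp⟩
  · obtain ⟨_, ⟨φ, a, b, rfl⟩, d, _⟩ := (h5 v).exists_between (show 1 / 2 * ‖v‖ < ‖v‖ by linarith)
    refine ⟨φ, (a.image y).mono ?_, b, d.le⟩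
    rintro _ ⟨⟨g, rfl⟩, e⟩
    exact ⟨g, e, rfl⟩

theorem noval {Y : Type} [NormedAddCommGroup Y] [NormedSpace ℝ Y] {x : II → Y} (hx : Chain x) :
    ¬ BallValdivia Y := by
  rintro ⟨Γ, e, he, hD⟩
  have : CompactSpace (DualBall Y) := isCompact_iff_compactSpace.1 (by
    have := WeakDual.isCompact_closedBall (𝕜 := ℝ) (E := Y) 0 1
    have e : WeakDual.toStrongDual ⁻¹' Metric.closedBall (0 : StrongDual ℝ Y) 1 =
        {φ : WeakDual ℝ Y | ‖WeakDual.toStrongDual φ‖ ≤ 1} := by ext; simp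
    rwa [e] at this)
  have : Nonempty (DualBall Y) := ⟨⟨0, by simp⟩⟩
  let J0 : Y →ₗ[ℝ] C(DualBall Y, ℝ) :=
    { toFun := fun y => ⟨fun φ => φ.1 y, (WeakDual.eval_continuous y).comp continuous_subtype_val⟩
      map_add' := fun a b => by ext φ; simp
      map_smul' := fun a b => by ext φ; simp }
  let J : Y →L[ℝ] C(DualBall Y, ℝ) := J0.mkContinuous 1 fun y => by
    rw [one_mul, ContinuousMap.norm_le _ (norm_nonneg _)]
    intro φ
    exact ((WeakDual.toStrongDual φ.1).le_opNorm y).trans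
      (mul_le_of_le_one_left (norm_nonneg _) φ.2)
  refine chain_contra (plichko_of_vald e he hD) (hx.map J one_pos fun y => ?_)
  rw [one_mul]
  by_cases c : ‖y‖ = 0
  · rw [c]; exact norm_nonneg _
  · obtain ⟨g, g1, g2⟩ := exists_dual_vector ℝ y c
    refine le_trans ?_ ((J y).norm_coe_le_norm ⟨StrongDual.toWeakDual g, g1.le⟩)
    show ‖y‖ ≤ ‖g y‖
    rw [g2]; simp

theorem result : ∃ (X : Type) (_ : NormedAddCommGroup X) (_ : NormedSpace ℝ X),
    CompleteSpace X ∧ Asplund X ∧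
    ∀ (X' : Type) [NormedAddCommGroup X'] [NormedSpace ℝ X'], Iso X X' →
      ¬ BallValdivia (StrongDual ℝ X') ∧ ¬ HasCNB (StrongDual ℝ X') := by
  refine ⟨XJ, inferInstance, inferInstance, inferInstance, asplundJ, ?_⟩
  rintro X' _ _ ⟨T⟩
  obtain ⟨a0, _⟩ := exists_not_mem (S := (Set.univ : Set II)) (B := ∅) (by
    rw [Cardinal.mk_univ, Cardinal.mk_ord_toType]
    exact Cardinal.aleph_lt_aleph.2 one_lt_two) (by simp)
  have hx := (chainJ a0).map ((ContinuousLinearMap.compL ℝ X' XJ ℝ).flip (T.symm : X' →L[ℝ] XJ))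
    (c := 1 / (‖(T : XJ →L[ℝ] X')‖ + 1)) (by positivity) (by
      intro g
      rw [div_mul_eq_mul_div, one_mul, div_le_iff₀ (by positivity)]
      have e : g = (g.comp (T.symm : X' →L[ℝ] XJ)).comp (T : XJ →L[ℝ] X') := by ext; simp
      refine (congrArg norm e).trans_le ((ContinuousLinearMap.opNorm_comp_le _ _).trans ?_)
      exact mul_le_mul_of_nonneg_left (le_add_of_nonneg_right zero_le_one) (norm_nonneg _))
  exact ⟨noval hx, fun h => chain_contra (half h) hx⟩

end Pool.Agent.Results.MP_526336_an.NoRenorming
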